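import Pool.Agent.Helper89.Vol5.Goals

/-! Packet V58-J5b (project V58, MP_cd13d2_co): the planar inequality `G_J5b`. -/

set_option autoImplicit false

namespace Pool.Agent.Helper34.Vol5.PkJ5b

open Set

/-- Case A: `M0 g2 ≤ N g1`. -/
theorem caseA (N k M g1 g2 S M0 : ℝ) (hN : 0 ≤ N) (hN2 : N ^ 2 ≤ 1 / 8) (hk : 0 ≤ k) (hM : 0 ≤ M)
    (hg1 : 0 ≤ g1) (hg2 : 0 ≤ g2) (hS : 0 ≤ S) (h1 : (k + N) ^ 2 + M ^ 2 ≤ 1 / 2)
    (h2 : g1 ^ 2 + g2 ^ 2 ≤ 1) (h3 : S ^ 2 + g1 ^ 2 + g2 ^ 2 + 4 * N ^ 2 + 4 * N * g1 ≤ 3)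
    (hM0 : 0 < M0) (hM0s : M0 ^ 2 = 1 / 2 - N ^ 2) (hA : M0 * g2 ≤ N * g1) :
    k * g2 + M * g1 + N * S ≤ 0.9 := by
  have e1 : M * M0 ≤ M0 ^ 2 - k * N := by
    have hpos : 0 ≤ M0 ^ 2 - k * N := by
      have : 0 ≤ k * N := mul_nonneg hk hN
      nlinarith [sq_nonneg M, sq_nonneg k]
    have hsq : (M * M0) ^ 2 ≤ (M0 ^ 2 - k * N) ^ 2 := by
      have hM2 : M ^ 2 ≤ M0 ^ 2 - 2 * k * N - k ^ 2 := by nlinarith
      have : (M * M0) ^ 2 ≤ (M0 ^ 2 - 2 * k * N - k ^ 2) * M0 ^ 2 := by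
        rw [mul_pow]
        exact mul_le_mul_of_nonneg_right hM2 (sq_nonneg M0)
      nlinarith [sq_nonneg (k * M0), sq_nonneg (k * N)]
    exact abs_le_of_sq_le_sq' hsq hpos |>.2
  have e2 : k * g2 + M * g1 ≤ M0 * g1 := by
    have : M0 * (k * g2 + M * g1) ≤ M0 * (M0 * g1) := by
      have a1 : k * (M0 * g2) ≤ k * (N * g1) := mul_le_mul_of_nonneg_left hA hk
      have a2 : (M * M0) * g1 ≤ (M0 ^ 2 - k * N) * g1 := mul_le_mul_of_nonneg_right e1 hg1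
      nlinarith
    exact le_of_mul_le_mul_left this hM0
  have hγ : g1 ≤ 1 := by
    by_contra hc
    push Not at hc
    nlinarith [sq_nonneg g2]
  have hSq : S ^ 2 ≤ 3 - (g1 + 2 * N) ^ 2 := by nlinarith [sq_nonneg g2]
  rcases le_total N (1 / 4) with hN4 | hN4
  · -- N ≤ 1/4
    have hM0l : 0.66 ≤ M0 := by
      by_contra hc
      push Not at hc
      nlinarith
    have e3 : S ≤ (3.9409 - (g1 + 2 * N) ^ 2) / 1.94 := by
      rw [le_div_iff₀ (by norm_num)]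
      nlinarith [sq_nonneg (S - 0.97)]
    have e4 : N * S ≤ N * ((3.9409 - (g1 + 2 * N) ^ 2) / 1.94) := mul_le_mul_of_nonneg_left e3 hN
    have e5 : M0 * g1 + N * ((3.9409 - (g1 + 2 * N) ^ 2) / 1.94) ≤
        M0 + N * ((3.9409 - (1 + 2 * N) ^ 2) / 1.94) := by
      have b1 : 0 ≤ M0 - (N / 1.94) * (1 + g1 + 4 * N) := by
        have h4 : N * (1 + g1 + 4 * N) ≤ (1 / 4) * (1 + 1 + 4 * (1 / 4)) := by
          apply mul_le_mul hN4 (by linarith) (by positivity) (by norm_num)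
        have h' : (N / 1.94) * (1 + g1 + 4 * N) = N * (1 + g1 + 4 * N) / 1.94 := by ring
        rw [h']
        have : N * (1 + g1 + 4 * N) / 1.94 ≤ 0.4 := by
          rw [div_le_iff₀ (by norm_num)]
          linarith
        linarith
      have b2 : 0 ≤ (1 - g1) * (M0 - (N / 1.94) * (1 + g1 + 4 * N)) :=
        mul_nonneg (by linarith) b1
      have b3 : M0 + N * ((3.9409 - (1 + 2 * N) ^ 2) / 1.94) -
        (M0 * g1 + N * ((3.9409 - (g1 + 2 * N) ^ 2) / 1.94)) =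
        (1 - g1) * (M0 - (N / 1.94) * (1 + g1 + 4 * N)) := by ring
      linarith
    have e6 : M0 ≤ (0.955625 - N ^ 2) / 1.35 := by
      rw [le_div_iff₀ (by norm_num)]
      nlinarith [sq_nonneg (M0 - 0.675)]
    have e7 : (0.955625 - N ^ 2) / 1.35 + N * ((3.9409 - (1 + 2 * N) ^ 2) / 1.94) ≤ 0.89 := by
      have c1 : 0 ≤ (N - 11 / 50) ^ 2 * (N + 3 / 2) := by positivity
      have c2 : 0 ≤ (N - 11 / 50) ^ 2 := sq_nonneg _
      have c3 : (0.955625 - N ^ 2) / 1.35 + N * ((3.9409 - (1 + 2 * N) ^ 2) / 1.94) =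
        (0.955625 / 1.35) + (2.9409 / 1.94) * N - (1 / 1.35 + 4 / 1.94) * N ^ 2 -
          (4 / 1.94) * N ^ 3 := by ring
      rw [c3]
      norm_num
      nlinarith
    linarith
  · -- N ≥ 1/4
    have f1 : M0 * (g1 + 2 * N) + N * S ≤ 1.2248 := by
      have : (M0 * (g1 + 2 * N) + N * S) ^ 2 ≤ 1.2248 ^ 2 := by
        have c1 : (M0 * (g1 + 2 * N) + N * S) ^ 2 ≤
            (M0 ^ 2 + N ^ 2) * ((g1 + 2 * N) ^ 2 + S ^ 2) := by
          nlinarith [sq_nonneg (M0 * S - N * (g1 + 2 * N))]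
        have c2 : (M0 ^ 2 + N ^ 2) * ((g1 + 2 * N) ^ 2 + S ^ 2) ≤ (1 / 2) * 3 := by
          rw [hM0s]
          have : (g1 + 2 * N) ^ 2 + S ^ 2 ≤ 3 := by linarith
          nlinarith
        have c3 : ((1 : ℝ) / 2) * 3 ≤ 1.2248 ^ 2 := by norm_num
        linarith
      exact abs_le_of_sq_le_sq' this (by norm_num) |>.2
    have f2 : 0.165 ≤ N * M0 := by
      have h4 : (0.165 : ℝ) ^ 2 ≤ (N * M0) ^ 2 := by
        rw [mul_pow, hM0s]
        have a1 : 1 / 16 ≤ N ^ 2 := by nlinarith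
        nlinarith [mul_nonneg (sub_nonneg.2 a1) (sub_nonneg.2 hN2)]
      exact abs_le_of_sq_le_sq' h4 (by positivity) |>.2
    nlinarith

/-- Case B: `1.414 N g1 ≤ g2`. -/
theorem caseB (N k M g1 g2 S : ℝ) (hN : 0 ≤ N) (hN2 : N ^ 2 ≤ 1 / 8) (hk : 0 ≤ k) (hM : 0 ≤ M)
    (hg1 : 0 ≤ g1) (hg2 : 0 ≤ g2) (hS : 0 ≤ S) (h1 : (k + N) ^ 2 + M ^ 2 ≤ 1 / 2)
    (h2 : g1 ^ 2 + g2 ^ 2 ≤ 1) (h3 : S ^ 2 + g1 ^ 2 + g2 ^ 2 + 4 * N ^ 2 + 4 * N * g1 ≤ 3)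
    (hB : 1.414 * (N * g1) ≤ g2) :
    k * g2 + M * g1 + N * S ≤ 0.9 := by
  obtain ⟨G, hG0, hGs⟩ : ∃ G : ℝ, 0 ≤ G ∧ G ^ 2 = g1 ^ 2 + g2 ^ 2 :=
    ⟨√(g1 ^ 2 + g2 ^ 2), Real.sqrt_nonneg _, Real.sq_sqrt (by positivity)⟩
  have hγ : G ≤ 1 := by
    by_contra hc
    push Not at hc
    nlinarith
  have hNb : N ≤ 0.3536 := by
    by_contra hc
    push Not at hc
    nlinarith
  have e1 : (k + N) * g2 + M * g1 ≤ 0.7072 * G := by
    have : ((k + N) * g2 + M * g1) ^ 2 ≤ (0.7072 * G) ^ 2 := by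
      have c1 : ((k + N) * g2 + M * g1) ^ 2 ≤ ((k + N) ^ 2 + M ^ 2) * (g1 ^ 2 + g2 ^ 2) := by
        nlinarith [sq_nonneg ((k + N) * g1 - M * g2)]
      have c2 : ((k + N) ^ 2 + M ^ 2) * (g1 ^ 2 + g2 ^ 2) ≤ (1 / 2) * (g1 ^ 2 + g2 ^ 2) :=
        mul_le_mul_of_nonneg_right h1 (by positivity)
      rw [mul_pow, hGs]
      nlinarith [sq_nonneg g1, sq_nonneg g2]
    exact abs_le_of_sq_le_sq' this (by positivity) |>.2
  have e2 : S ≤ (4 - G ^ 2 - 4 * N ^ 2 - 4 * N * g1) / 2 := by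
    rw [le_div_iff₀ (by norm_num)]
    nlinarith [sq_nonneg (S - 1)]
  have e3 : N * S ≤ N * ((4 - G ^ 2 - 4 * N ^ 2 - 4 * N * g1) / 2) :=
    mul_le_mul_of_nonneg_left e2 hN
  have e4 : k * g2 + M * g1 + N * S ≤
      0.7072 * G - N * (g2 + 2 * N * g1) + (N / 2) * (4 - G ^ 2 - 4 * N ^ 2) := by
    have : N * ((4 - G ^ 2 - 4 * N ^ 2 - 4 * N * g1) / 2) =
      (N / 2) * (4 - G ^ 2 - 4 * N ^ 2) - N * (2 * N * g1) := by ring
    nlinarith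
  have a4 : 1.414 * (N * g1) * (N * g1) ≤ N * g1 * g2 := by
    have := mul_le_mul_of_nonneg_left hB (show 0 ≤ N * g1 by positivity)
    linarith
  have a6 : (g2 + 2 * N * g1) ^ 2 = g2 ^ 2 + 4 * (N * g1 * g2) + 4 * (N * g1) ^ 2 := by ring
  rcases le_total N (3 / 10) with hc | hc
  · -- N ≤ 3/10
    have e5 : 3 * N * G ≤ g2 + 2 * N * g1 := by
      have hp : 0 ≤ g2 + 2 * N * g1 := by positivity
      have : (3 * N * G) ^ 2 ≤ (g2 + 2 * N * g1) ^ 2 := by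
        have a1 : (3 * N * G) ^ 2 = 9 * N ^ 2 * (g1 ^ 2 + g2 ^ 2) := by
          rw [← hGs]; ring
        have a2 : N ^ 2 ≤ 9 / 100 := by nlinarith
        have a3 : 0 ≤ (1 - 9 * N ^ 2) * g2 ^ 2 := mul_nonneg (by linarith) (sq_nonneg _)
        have a5 : 0 ≤ (N * g1) ^ 2 := sq_nonneg _
        rw [a1, a6]
        nlinarith
      exact abs_le_of_sq_le_sq' this hp |>.2
    have e6 : N * (3 * N * G) ≤ N * (g2 + 2 * N * g1) :=
      mul_le_mul_of_nonneg_left e5 hN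
    have e7 : 0.7072 * G - N * (3 * N * G) + (N / 2) * (4 - G ^ 2 - 4 * N ^ 2) ≤
        0.7072 - 3 * N ^ 2 + (N / 2) * (3 - 4 * N ^ 2) := by
      have b1 : 0 ≤ 0.7072 - 3 * N ^ 2 - (N / 2) * (1 + G) := by
        have a2 : N ^ 2 ≤ 9 / 100 := by nlinarith
        have a3 : N * (1 + G) ≤ (3 / 10) * (1 + 1) := by
          apply mul_le_mul hc (by linarith) (by positivity) (by norm_num)
        have a7 : (N / 2) * (1 + G) = N * (1 + G) / 2 := by ring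
        rw [a7]
        linarith
      have b2 : 0 ≤ (1 - G) * (0.7072 - 3 * N ^ 2 - (N / 2) * (1 + G)) :=
        mul_nonneg (by linarith) b1
      have b3 : 0.7072 - 3 * N ^ 2 + (N / 2) * (3 - 4 * N ^ 2) -
        (0.7072 * G - N * (3 * N * G) + (N / 2) * (4 - G ^ 2 - 4 * N ^ 2)) =
        (1 - G) * (0.7072 - 3 * N ^ 2 - (N / 2) * (1 + G)) := by ring
      linarith
    have e8 : 0.7072 - 3 * N ^ 2 + (N / 2) * (3 - 4 * N ^ 2) ≤ 0.88 := by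
      have c1 : 0 ≤ (N - 207 / 1000) ^ 2 * (N + 3 / 2) := by positivity
      have c2 : 0 ≤ (N - 207 / 1000) ^ 2 := sq_nonneg _
      nlinarith
    linarith
  · -- N ≥ 3/10
    have e5 : 0.9 * G ≤ g2 + 2 * N * g1 := by
      have hp : 0 ≤ g2 + 2 * N * g1 := by positivity
      have : (0.9 * G) ^ 2 ≤ (g2 + 2 * N * g1) ^ 2 := by
        have a2 : 9 / 100 ≤ N ^ 2 := by nlinarith
        have a5 : 9 / 100 * g1 ^ 2 ≤ (N * g1) ^ 2 := by
          rw [mul_pow]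
          exact mul_le_mul_of_nonneg_right a2 (sq_nonneg _)
        rw [a6, mul_pow, hGs]
        nlinarith [sq_nonneg g1, sq_nonneg g2]
      exact abs_le_of_sq_le_sq' this hp |>.2
    have e6 : N * (0.9 * G) ≤ N * (g2 + 2 * N * g1) :=
      mul_le_mul_of_nonneg_left e5 hN
    have e7 : 0.7072 * G - N * (0.9 * G) + (N / 2) * (4 - G ^ 2 - 4 * N ^ 2) ≤
        0.7072 - 0.9 * N + (N / 2) * (3 - 4 * N ^ 2) := by
      have b1 : 0 ≤ 0.7072 - 0.9 * N - (N / 2) * (1 + G) := by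
        have a3 : N * (1 + G) ≤ 0.3536 * (1 + 1) := by
          apply mul_le_mul hNb (by linarith) (by positivity) (by norm_num)
        have a7 : (N / 2) * (1 + G) = N * (1 + G) / 2 := by ring
        rw [a7]
        linarith
      have b2 : 0 ≤ (1 - G) * (0.7072 - 0.9 * N - (N / 2) * (1 + G)) :=
        mul_nonneg (by linarith) b1
      have b3 : 0.7072 - 0.9 * N + (N / 2) * (3 - 4 * N ^ 2) -
        (0.7072 * G - N * (0.9 * G) + (N / 2) * (4 - G ^ 2 - 4 * N ^ 2)) =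
        (1 - G) * (0.7072 - 0.9 * N - (N / 2) * (1 + G)) := by ring
      linarith
    have e8 : 0.7072 - 0.9 * N + (N / 2) * (3 - 4 * N ^ 2) ≤ 0.85 := by
      have c1 : 0 ≤ (N - 79 / 250) ^ 2 * (N + 79 / 125) := by positivity
      have c2 : 0 ≤ (N - 79 / 250) ^ 2 := sq_nonneg _
      nlinarith
    linarith

theorem thm : Pool.Agent.Helper89.Vol5.G_J5b := by
  intro N k M g1 g2 S hN hN2 hk hM hg1 hg2 hS h1 h2 h3
  obtain ⟨M0, hM0, hM0s⟩ : ∃ M0 : ℝ, 0 < M0 ∧ M0 ^ 2 = 1 / 2 - N ^ 2 := by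
    have : 0 < 1 / 2 - N ^ 2 := by linarith
    exact ⟨√(1 / 2 - N ^ 2), Real.sqrt_pos.mpr this, Real.sq_sqrt this.le⟩
  rcases le_total (M0 * g2) (N * g1) with hA | hB
  · exact caseA N k M g1 g2 S M0 hN hN2 hk hM hg1 hg2 hS h1 h2 h3 hM0 hM0s hA
  · refine caseB N k M g1 g2 S hN hN2 hk hM hg1 hg2 hS h1 h2 h3 ?_
    have hM01 : 1.414 * M0 ≤ 1 := by
      by_contra hc
      push Not at hc
      nlinarith [sq_nonneg N]
    calc 1.414 * (N * g1) ≤ 1.414 * (M0 * g2) := by linarith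
      _ = (1.414 * M0) * g2 := by ring
      _ ≤ 1 * g2 := mul_le_mul_of_nonneg_right hM01 hg2
      _ = g2 := one_mul _

end Pool.Agent.Helper34.Vol5.PkJ5b
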